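import Mathlib

open SimpleGraph Finset

namespace Pool.Agent.Results.MP_f3efb8_co.TriangleMissed

/-- every vertex has degree `r` -/
def IsRegular {V : Type} (G : SimpleGraph V) (r : ℕ) : Prop := ∀ v, (G.neighborSet v).ncard = r

/-- `F` is a `t`-factor of `G` -/
def IsFactor {V : Type} (G F : SimpleGraph V) (t : ℕ) : Prop := F ≤ G ∧ IsRegular F t

/-- `G` is `κ`-connected -/
def IsConn {V : Type} [Fintype V] (G : SimpleGraph V) (κ : ℕ) : Prop :=
  κ < Fintype.card V ∧ ∀ X : Finset V, X.card < κ → (G.induce ((X : Set V)ᶜ)).Connected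

/-- `O` is a family of pairwise edge-disjoint cycles of length at least three, given by their
edge sets -/
def IsCycleFamily {V : Type} (G : SimpleGraph V) (O : Set (Set (Sym2 V))) : Prop :=
  (∀ C ∈ O, ∃ (v : V) (w : G.Walk v v), w.IsCycle ∧ 3 ≤ w.length ∧ C = {e | e ∈ w.edges}) ∧
    ∀ C ∈ O, ∀ D ∈ O, C ≠ D → Disjoint C D

/-- the assertion of the question for `κ`, for simple graphs -/
def Claim (κ : ℕ) : Prop :=
  ∀ r t : ℕ, 0 < r → 0 < t → (1 : ℚ) / κ ≤ (t : ℚ) / r → (t : ℚ) / r ≤ 1 →
    ∀ (V : Type) [Fintype V] (G : SimpleGraph V), IsConn G κ → IsRegular G r →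
      (∃ F, IsFactor G F t) → ∀ O, IsCycleFamily G O →
        ∃ F, IsFactor G F t ∧ ∀ C ∈ O, (F.edgeSet ∩ C).Nonempty

/-! ### The graph -/

abbrev VV := Fin 3 ⊕ ((Fin 3 × Fin 3) ⊕ (Fin 3 × Fin 8 × Fin 13))

abbrev vS (a : Fin 3) : VV := Sum.inl a
abbrev vT (c i : Fin 3) : VV := Sum.inr (Sum.inl (c, i))
abbrev vY (c : Fin 3) (m : Fin 8) (v : Fin 13) : VV := Sum.inr (Sum.inr (c, m, v))

def att (v : Fin 13) (i : Fin 3) : Bool := v.val == i.val

def genAdj (st : Fin 3 → Fin 3 → Fin 3 → Bool) (ty : Fin 8 → Fin 3 → Bool)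
    (yy : Fin 8 → Fin 13 → Fin 13 → Bool) : VV → VV → Bool
  | Sum.inl a, Sum.inl b => a != b
  | Sum.inl a, Sum.inr (Sum.inl (c, i)) => st a c i
  | Sum.inl _, Sum.inr (Sum.inr _) => false
  | Sum.inr (Sum.inl (c, i)), Sum.inl a => st a c i
  | Sum.inr (Sum.inl _), Sum.inr (Sum.inl _) => false
  | Sum.inr (Sum.inl (c, i)), Sum.inr (Sum.inr (c', m, v)) => (c == c') && (att v i && ty m i)
  | Sum.inr (Sum.inr _), Sum.inl _ => false
  | Sum.inr (Sum.inr (c', m, v)), Sum.inr (Sum.inl (c, i)) => (c == c') && (att v i && ty m i)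
  | Sum.inr (Sum.inr (c, m, v)), Sum.inr (Sum.inr (c', m', w)) => (c == c') && ((m == m') && yy m v w)

theorem genAdj_symm (st : Fin 3 → Fin 3 → Fin 3 → Bool) (ty : Fin 8 → Fin 3 → Bool)
    (yy : Fin 8 → Fin 13 → Fin 13 → Bool) (h3 : ∀ m v w, yy m v w = yy m w v) (x y : VV)
    (h : genAdj st ty yy x y = true) : genAdj st ty yy y x = true := by
  rcases x with a | ⟨c, i⟩ | ⟨c, m, v⟩ <;> rcases y with b | ⟨c', i'⟩ | ⟨c', m', v'⟩ <;>
    simp only [genAdj] at h ⊢
  · rw [bne_iff_ne] at h ⊢
    exact h.symm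
  · exact h
  · exact absurd h (by simp)
  · exact h
  · exact absurd h (by simp)
  · exact h
  · exact absurd h (by simp)
  · exact h
  · simp only [Bool.and_eq_true, beq_iff_eq] at h ⊢
    obtain ⟨h1, h2, h4⟩ := h
    subst h1 h2
    exact ⟨rfl, rfl, by rw [h3]; exact h4⟩

theorem genAdj_irrefl (st : Fin 3 → Fin 3 → Fin 3 → Bool) (ty : Fin 8 → Fin 3 → Bool)
    (yy : Fin 8 → Fin 13 → Fin 13 → Bool) (h4 : ∀ m v, yy m v v = false) (x : VV) : genAdj st ty yy x x = false := by
  rcases x with a | ⟨c, i⟩ | ⟨c, m, v⟩ <;> simp [genAdj, h4]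

def genGraph (st : Fin 3 → Fin 3 → Fin 3 → Bool) (ty : Fin 8 → Fin 3 → Bool)
    (yy : Fin 8 → Fin 13 → Fin 13 → Bool) (h3 : ∀ m v w, yy m v w = yy m w v) (h4 : ∀ m v, yy m v v = false) :
    SimpleGraph VV where
  Adj x y := genAdj st ty yy x y = true
  symm := ⟨fun x y h => genAdj_symm st ty yy h3 x y h⟩
  loopless := ⟨fun x h => by rw [genAdj_irrefl st ty yy h4] at h; exact absurd h (by simp)⟩

theorem ncard_gen (st : Fin 3 → Fin 3 → Fin 3 → Bool) (ty : Fin 8 → Fin 3 → Bool)
    (yy : Fin 8 → Fin 13 → Fin 13 → Bool)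
    (h3 : ∀ m v w, yy m v w = yy m w v) (h4 : ∀ m v, yy m v v = false) (x : VV) :
    ((genGraph st ty yy h3 h4).neighborSet x).ncard = ∑ y, (genAdj st ty yy x y).toNat := by
  have : (genGraph st ty yy h3 h4).neighborSet x =
      ((univ.filter (fun y => genAdj st ty yy x y = true) : Finset VV) : Set VV) := by
    ext y
    simp only [mem_neighborSet, coe_filter, mem_univ, true_and, Set.mem_ofPred_eq]
    exact Iff.rfl
  rw [this, Set.ncard_coe_finset, Finset.card_filter]
  apply Finset.sum_congr rfl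
  intro y _
  cases genAdj st ty yy x y <;> simp

theorem deg_S (st : Fin 3 → Fin 3 → Fin 3 → Bool) (ty : Fin 8 → Fin 3 → Bool)
    (yy : Fin 8 → Fin 13 → Fin 13 → Bool)
    (h3 : ∀ m v w, yy m v w = yy m w v) (h4 : ∀ m v, yy m v v = false) (a : Fin 3) : ((genGraph st ty yy h3 h4).neighborSet (vS a)).ncard =
    (∑ b, (a != b).toNat) + ∑ c, ∑ i, (st a c i).toNat := by
  rw [ncard_gen]
  simp only [Fintype.sum_sum_type, Fintype.sum_prod_type, genAdj, Bool.toNat_false, Finset.sum_const_zero, add_zero]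

theorem deg_T (st : Fin 3 → Fin 3 → Fin 3 → Bool) (ty : Fin 8 → Fin 3 → Bool)
    (yy : Fin 8 → Fin 13 → Fin 13 → Bool)
    (h3 : ∀ m v w, yy m v w = yy m w v) (h4 : ∀ m v, yy m v v = false) (c i : Fin 3) : ((genGraph st ty yy h3 h4).neighborSet (vT c i)).ncard =
    (∑ a, (st a c i).toNat) + ∑ m, (ty m i).toNat := by
  rw [ncard_gen]
  simp only [Fintype.sum_sum_type, Fintype.sum_prod_type, genAdj, Bool.toNat_false, Finset.sum_const_zero, zero_add]
  refine congrArg _ ?_
  rw [Finset.sum_eq_single c]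
  · apply Finset.sum_congr rfl
    intro m _
    rw [Finset.sum_eq_single (⟨i.1, by omega⟩ : Fin 13)]
    · simp [att]
    · intro v _ hv
      have : att v i = false := by
        simp only [att, beq_eq_false_iff_ne, ne_eq]
        intro h
        exact hv (Fin.ext h)
      simp [this]
    · simp
  · intro c' _ hc'
    have : (c == c') = false := by
      simp only [beq_eq_false_iff_ne, ne_eq]
      exact fun h => hc' h.symm
    simp [this]
  · simp

theorem deg_Y (st : Fin 3 → Fin 3 → Fin 3 → Bool) (ty : Fin 8 → Fin 3 → Bool)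
    (yy : Fin 8 → Fin 13 → Fin 13 → Bool)
    (h3 : ∀ m v w, yy m v w = yy m w v) (h4 : ∀ m v, yy m v v = false) (c : Fin 3) (m : Fin 8) (v : Fin 13) :
    ((genGraph st ty yy h3 h4).neighborSet (vY c m v)).ncard =
    (∑ i, (att v i && ty m i).toNat) + ∑ w, (yy m v w).toNat := by
  rw [ncard_gen]
  simp only [Fintype.sum_sum_type, Fintype.sum_prod_type, genAdj, Bool.toNat_false, Finset.sum_const_zero, zero_add]
  refine congrArg₂ (· + ·) ?_ ?_
  · rw [Finset.sum_eq_single c]
    · simp
    · intro c' _ hc'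
      have : (c' == c) = false := by
        simp only [beq_eq_false_iff_ne, ne_eq]
        exact hc'
      simp [this]
    · simp
  · rw [Finset.sum_eq_single c, Finset.sum_eq_single m]
    · simp
    · intro m' _ hm'
      have : (m == m') = false := by
        simp only [beq_eq_false_iff_ne, ne_eq]
        exact fun h => hm' h.symm
      simp [this]
    · simp
    · intro c' _ hc'
      have : (c == c') = false := by
        simp only [beq_eq_false_iff_ne, ne_eq]
        exact fun h => hc' h.symm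
      simp [this]
    · simp

/-- the pairs removed from `K_13` in a gadget -/
def missing : List (ℕ × ℕ) := [(0, 3), (0, 4), (1, 5), (1, 6), (2, 7), (2, 8), (9, 11), (10, 12)]

def gad (v w : Fin 13) : Bool :=
  v != w && !((v.1, w.1) ∈ missing) && !((w.1, v.1) ∈ missing)

def matching (j : Fin 3) : List (ℕ × ℕ) :=
  match j with
  | 0 => [(1, 3), (2, 4), (5, 7), (6, 10), (8, 11), (9, 12)]
  | 1 => [(0, 2), (3, 5), (4, 6), (7, 10), (8, 11), (9, 12)]
  | 2 => [(0, 5), (1, 3), (4, 6), (7, 10), (8, 11), (9, 12)]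

def hgad (j : Fin 3) (v w : Fin 13) : Bool :=
  v.1 + 1 == w.1 || w.1 + 1 == v.1 || (v.1 == 12 && w.1 == 0) || (v.1 == 0 && w.1 == 12) ||
    ((v.1, w.1) ∈ matching j) || ((w.1, v.1) ∈ matching j)

def gch (m : Fin 8) : Fin 3 := if m.1 < 2 then 0 else if m.1 < 5 then 1 else 2

theorem gad_symm : ∀ (_ : Fin 8) (v w : Fin 13), gad v w = gad w v := by
  have : ∀ (v w : Fin 13), gad v w = gad w v := by decide
  exact fun _ => this
theorem gad_irrefl : ∀ (_ : Fin 8) (v : Fin 13), gad v v = false := by decide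
theorem hgad_symm : ∀ (m : Fin 8) (v w : Fin 13), hgad (gch m) v w = hgad (gch m) w v := by
  have : ∀ (j : Fin 3) (v w : Fin 13), hgad j v w = hgad j w v := by decide
  exact fun m => this (gch m)
theorem hgad_irrefl : ∀ (m : Fin 8) (v : Fin 13), hgad (gch m) v v = false := by
  have : ∀ (j : Fin 3) (v : Fin 13), hgad j v v = false := by decide
  exact fun m => this (gch m)
theorem hgad_gad : ∀ (j : Fin 3) (v w : Fin 13), hgad j v w = true → gad v w = true := by decide

/-- the counterexample graph -/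
def GG : SimpleGraph VV := genGraph (fun _ _ _ => true) (fun _ _ => true) (fun _ => gad) gad_symm gad_irrefl

/-- a 3-factor -/
def H0 : SimpleGraph VV :=
  genGraph (fun a c i => a == c && i == 0) (fun m i => gch m == i) (fun m => hgad (gch m)) hgad_symm hgad_irrefl

theorem GG_regular : IsRegular GG 11 := by
  intro x
  rcases x with a | ⟨c, i⟩ | ⟨c, m, v⟩
  · rw [show GG = genGraph _ _ _ gad_symm gad_irrefl from rfl, deg_S]
    revert a; decide
  · rw [show GG = genGraph _ _ _ gad_symm gad_irrefl from rfl, deg_T]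
    revert c i; decide
  · rw [show GG = genGraph _ _ _ gad_symm gad_irrefl from rfl, deg_Y]
    revert v; decide

theorem H0_regular : IsRegular H0 3 := by
  intro x
  rcases x with a | ⟨c, i⟩ | ⟨c, m, v⟩
  · rw [show H0 = genGraph _ _ _ hgad_symm hgad_irrefl from rfl, deg_S]
    revert a; decide
  · rw [show H0 = genGraph _ _ _ hgad_symm hgad_irrefl from rfl, deg_T]
    revert c i; decide
  · rw [show H0 = genGraph _ _ _ hgad_symm hgad_irrefl from rfl, deg_Y]
    revert m v; decide

theorem H0_le : H0 ≤ GG := by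
  intro x y h
  change genAdj _ _ _ x y = true at h
  change genAdj _ _ _ x y = true
  rcases x with a | ⟨c, i⟩ | ⟨c, m, v⟩ <;> rcases y with b | ⟨c', i'⟩ | ⟨c', m', v'⟩ <;>
    simp only [genAdj] at h ⊢
  · exact h
  · exact absurd h (by simp)
  · exact absurd h (by simp)
  · simp only [Bool.and_eq_true] at h ⊢
    exact ⟨h.1, h.2.1, trivial⟩
  · exact absurd h (by simp)
  · simp only [Bool.and_eq_true] at h ⊢
    exact ⟨h.1, h.2.1, trivial⟩
  · simp only [Bool.and_eq_true] at h ⊢
    exact ⟨h.1, h.2.1, hgad_gad _ _ _ h.2.2⟩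

theorem diff_regular {F G : SimpleGraph VV} {a b : ℕ} (hle : F ≤ G) (hG : IsRegular G a) (hF : IsRegular F b) :
    IsRegular (G \ F) (a - b) := by
  classical
  intro v
  have h1 := hG v
  have h2 := hF v
  have h3 : (G \ F).neighborSet v = G.neighborSet v \ F.neighborSet v := by
    ext w; simp [mem_neighborSet]
  have h4 : F.neighborSet v ⊆ G.neighborSet v := fun w hw => hle hw
  rw [h3, Set.ncard_sdiff h4 (Set.toFinite _), h1, h2]

theorem exists_factor : ∃ F, IsFactor GG F 8 :=
  ⟨GG \ H0, sdiff_le, diff_regular H0_le GG_regular H0_regular⟩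

/-! ### Connectivity -/

def up (i : Fin 3) : Fin 13 := ⟨i.1, by omega⟩

theorem adj_SS {a b : Fin 3} (h : a ≠ b) : GG.Adj (vS a) (vS b) := by
  change (a != b) = true
  rw [bne_iff_ne]; exact h

theorem adj_ST (a c i : Fin 3) : GG.Adj (vS a) (vT c i) := by
  change true = true
  rfl

theorem adj_TY (c i : Fin 3) (m : Fin 8) : GG.Adj (vT c i) (vY c m (up i)) := by
  change ((c == c) && (att (up i) i && true)) = true
  simp [att, up]

theorem adj_YY (c : Fin 3) (m : Fin 8) {v w : Fin 13} (h : gad v w = true) : GG.Adj (vY c m v) (vY c m w) := by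
  change ((c == c) && ((m == m) && gad v w)) = true
  simp [h]

theorem gad_common : ∀ v w : Fin 13, 3 ≤ (univ.filter (fun u => gad v u = true ∧ gad u w = true)).card := by
  decide

/-- reachability outside `X` -/
def RR (X : Finset VV) (x y : VV) : Prop :=
  ∃ (hx : x ∈ (X : Set VV)ᶜ) (hy : y ∈ (X : Set VV)ᶜ), (GG.induce ((X : Set VV)ᶜ)).Reachable ⟨x, hx⟩ ⟨y, hy⟩

theorem RR.trans {X : Finset VV} {x y z : VV} (h1 : RR X x y) (h2 : RR X y z) : RR X x z := by
  obtain ⟨hx, hy, h⟩ := h1
  obtain ⟨hy', hz, h'⟩ := h2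
  exact ⟨hx, hz, h.trans h'⟩

theorem RR.symm {X : Finset VV} {x y : VV} (h1 : RR X x y) : RR X y x := by
  obtain ⟨hx, hy, h⟩ := h1
  exact ⟨hy, hx, h.symm⟩

theorem RR_of_adj {X : Finset VV} {x y : VV} (hx : x ∉ X) (hy : y ∉ X) (h : GG.Adj x y) : RR X x y := by
  refine ⟨hx, hy, ?_⟩
  have : (GG.induce ((X : Set VV)ᶜ)).Adj ⟨x, hx⟩ ⟨y, hy⟩ := h
  exact this.reachable

theorem RR_refl {X : Finset VV} {x : VV} (hx : x ∉ X) : RR X x x := ⟨hx, hx, Reachable.refl _⟩

theorem conn3 : IsConn GG 3 := by
  refine ⟨?_, fun X hX => ?_⟩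
  · have : Fintype.card VV = 324 := by
      simp
    omega
  have hS : ∃ a, vS a ∉ X := by
    by_contra hcon
    push Not at hcon
    have h1 : (univ.image vS).card ≤ X.card := Finset.card_le_card (by
      intro x hx
      rw [Finset.mem_image] at hx
      obtain ⟨a, -, rfl⟩ := hx
      exact hcon a)
    rw [Finset.card_image_of_injective _ Sum.inl_injective] at h1
    simp at h1
    omega
  obtain ⟨a0, ha0⟩ := hS
  have hT : ∀ c i, vT c i ∉ X → RR X (vT c i) (vS a0) := fun c i h => RR_of_adj h ha0 (adj_ST a0 c i).symm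
  have hall : ∀ x, x ∉ X → RR X x (vS a0) := by
    intro x hx
    rcases x with a | ⟨c, i⟩ | ⟨c, m, v⟩
    · by_cases h : a = a0
      · rw [h]; exact RR_refl ha0
      · exact RR_of_adj hx ha0 (adj_SS h)
    · exact hT c i hx
    · -- an attachment that survives
      have hatt : ∃ i, vT c i ∉ X ∧ vY c m (up i) ∉ X := by
        by_contra hcon
        push Not at hcon
        let g : Fin 3 → VV := fun i => if vT c i ∈ X then vT c i else vY c m (up i)
        have hg : ∀ i, g i ∈ X := by
          intro i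
          by_cases h : vT c i ∈ X
          · simp only [g, if_pos h]; exact h
          · simp only [g, if_neg h]; exact hcon i h
        have hinj : Function.Injective g := by
          intro i j hij
          simp only [g] at hij
          split_ifs at hij with h1 h2 h2
          · simpa using hij
          · simp at hij
          · simp at hij
          · simp only [vY, Sum.inr.injEq, Prod.mk.injEq, true_and, up, Fin.mk.injEq] at hij
            exact Fin.ext hij
        have h1 : (univ.image g).card ≤ X.card := Finset.card_le_card (by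
          intro x hx
          rw [Finset.mem_image] at hx
          obtain ⟨a, -, rfl⟩ := hx
          exact hg a)
        rw [Finset.card_image_of_injective _ hinj] at h1
        simp at h1
        omega
      obtain ⟨i, h1, h2⟩ := hatt
      refine RR.trans ?_ (RR.trans (RR_of_adj h2 h1 (adj_TY c i m).symm) (hT c i h1))
      -- a common neighbour
      have hcom : ∃ u, gad v u = true ∧ gad u (up i) = true ∧ vY c m u ∉ X := by
        by_contra hcon
        push Not at hcon
        have h3 := gad_common v (up i)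
        have h4 : ((univ.filter (fun u => gad v u = true ∧ gad u (up i) = true)).image (fun u => vY c m u)).card ≤ X.card :=
          Finset.card_le_card (by
            intro x hx
            rw [Finset.mem_image] at hx
            obtain ⟨u, hu, rfl⟩ := hx
            rw [Finset.mem_filter] at hu
            exact hcon u hu.2.1 hu.2.2)
        rw [Finset.card_image_of_injective] at h4
        · omega
        · intro a b hab
          simpa using hab
      obtain ⟨u, hu1, hu2, hu3⟩ := hcom
      exact (RR_of_adj hx hu3 (adj_YY c m hu1)).trans (RR_of_adj hu3 h2 (adj_YY c m hu2))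
  rw [connected_iff]
  refine ⟨fun x y => ?_, ⟨⟨vS a0, ha0⟩⟩⟩
  obtain ⟨_, _, h⟩ := (hall x.1 x.2).trans (hall y.1 y.2).symm
  exact h

theorem conn2 : IsConn GG 2 := ⟨by have := conn3.1; omega, fun X hX => conn3.2 X (by omega)⟩

/-! ### Counting -/

open Classical in
/-- adjacency indicator -/
noncomputable def ind (G : SimpleGraph VV) (x y : VV) : ℕ := if G.Adj x y then 1 else 0

theorem ind_le (G : SimpleGraph VV) (x y : VV) : ind G x y ≤ 1 := by
  unfold ind; split_ifs <;> omega

theorem ind_symm (G : SimpleGraph VV) (x y : VV) : ind G x y = ind G y x := by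
  unfold ind; rw [G.adj_comm]

theorem ind_zero {G : SimpleGraph VV} {x y : VV} (h : ¬ G.Adj x y) : ind G x y = 0 := by
  unfold ind; rw [if_neg h]

theorem adj_of_ind {G : SimpleGraph VV} {x y : VV} (h : ind G x y ≠ 0) : G.Adj x y := by
  by_contra hcon
  exact h (ind_zero hcon)

theorem sum_ind (G : SimpleGraph VV) (x : VV) : ∑ y, ind G x y = (G.neighborSet x).ncard := by
  classical
  have : G.neighborSet x = ((univ.filter (fun y => G.Adj x y) : Finset VV) : Set VV) := by
    ext y; simp
  rw [this, Set.ncard_coe_finset, Finset.card_filter]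
  apply Finset.sum_congr rfl
  intro y _
  unfold ind
  congr

theorem even_gadget (H : SimpleGraph VV) (c : Fin 3) (m : Fin 8) :
    Even (∑ v, ∑ w, ind H (vY c m v) (vY c m w)) := by
  classical
  have h1 := (H.comap (vY c m)).sum_degrees_eq_twice_card_edges
  have h2 : ∀ v, (H.comap (vY c m)).degree v = ∑ w, ind H (vY c m v) (vY c m w) := by
    intro v
    rw [← card_neighborFinset_eq_degree, neighborFinset_eq_filter, Finset.card_filter]
    apply Finset.sum_congr rfl
    intro w _
    unfold ind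
    simp only [comap_adj]
  rw [Finset.sum_congr rfl (fun v _ => h2 v)] at h1
  rw [h1]
  exact ⟨_, by ring⟩

theorem triangle_in (H : SimpleGraph VV) (hle : H ≤ GG) (hreg : IsRegular H 3) (a b : Fin 3) (hab : a ≠ b) :
    H.Adj (vS a) (vS b) := by
  have hsum : ∀ x, ∑ y, ind H x y = 3 := fun x => (sum_ind H x).trans (hreg x)
  have hz : ∀ x y, ¬ GG.Adj x y → ind H x y = 0 := fun x y h => ind_zero (fun h' => h (hle h'))
  -- the three kinds of degree equations
  have eS : ∀ a, ∑ b, ind H (vS a) (vS b) + ∑ c, ∑ i, ind H (vS a) (vT c i) = 3 := by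
    intro a
    have h := hsum (vS a)
    rw [Fintype.sum_sum_type, Fintype.sum_sum_type, Fintype.sum_prod_type, Fintype.sum_prod_type] at h
    have h0 : ∑ c : Fin 3, ∑ q : Fin 8 × Fin 13, ind H (vS a) (Sum.inr (Sum.inr (c, q))) = 0 := by
      apply Finset.sum_eq_zero
      intro c _
      apply Finset.sum_eq_zero
      intro q _
      exact hz _ _ (by intro h'; exact absurd h' (by change ¬ (false = true); simp))
    rw [h0, add_zero] at h
    exact h
  have eT : ∀ c i, ∑ a, ind H (vT c i) (vS a) + ∑ c', ∑ m, ∑ v, ind H (vT c i) (vY c' m v) = 3 := by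
    intro c i
    have h := hsum (vT c i)
    rw [Fintype.sum_sum_type, Fintype.sum_sum_type] at h
    have h0 : ∑ q : Fin 3 × Fin 3, ind H (vT c i) (Sum.inr (Sum.inl q)) = 0 := by
      apply Finset.sum_eq_zero
      intro q _
      exact hz _ _ (by intro h'; exact absurd h' (by change ¬ (false = true); simp))
    rw [h0, zero_add, Fintype.sum_prod_type] at h
    simp only [Fintype.sum_prod_type] at h
    exact h
  have eY : ∀ c m v, ∑ i, ind H (vY c m v) (vT c i) + ∑ w, ind H (vY c m v) (vY c m w) = 3 := by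
    intro c m v
    have h := hsum (vY c m v)
    rw [Fintype.sum_sum_type, Fintype.sum_sum_type] at h
    have h0 : ∑ q : Fin 3, ind H (vY c m v) (Sum.inl q) = 0 := by
      apply Finset.sum_eq_zero
      intro q _
      exact hz _ _ (by intro h'; exact absurd h' (by change ¬ (false = true); simp))
    have h1 : ∑ q : Fin 3 × Fin 3, ind H (vY c m v) (Sum.inr (Sum.inl q)) = ∑ i, ind H (vY c m v) (vT c i) := by
      rw [Fintype.sum_prod_type, Finset.sum_eq_single c]
      · intro c' _ hc'
        apply Finset.sum_eq_zero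
        intro i _
        refine hz _ _ (fun h' => ?_)
        have h'' : ((c' == c) && (att v i && true)) = true := h'
        simp only [Bool.and_eq_true, beq_iff_eq] at h''
        exact hc' h''.1
      · simp
    have h2 : ∑ q : Fin 3 × Fin 8 × Fin 13, ind H (vY c m v) (Sum.inr (Sum.inr q)) = ∑ w, ind H (vY c m v) (vY c m w) := by
      simp only [Fintype.sum_prod_type]
      rw [Finset.sum_eq_single c, Finset.sum_eq_single m]
      · intro m' _ hm'
        apply Finset.sum_eq_zero
        intro w _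
        refine hz _ _ (fun h' => ?_)
        have h'' : ((c == c) && ((m == m') && gad v w)) = true := h'
        simp only [Bool.and_eq_true, beq_iff_eq] at h''
        exact hm' h''.2.1.symm
      · simp
      · intro c' _ hc'
        apply Finset.sum_eq_zero
        intro m' _
        apply Finset.sum_eq_zero
        intro w _
        refine hz _ _ (fun h' => ?_)
        have h'' : ((c == c') && ((m == m') && gad v w)) = true := h'
        simp only [Bool.and_eq_true, beq_iff_eq] at h''
        exact hc' h''.1.symm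
      · simp
    rw [h0, zero_add, h1, h2] at h
    exact h
  -- each gadget sends at least one edge of `H` to `T`
  have hgadget : ∀ c m, 1 ≤ ∑ v, ∑ i, ind H (vY c m v) (vT c i) := by
    intro c m
    have h1 : ∑ v : Fin 13, (∑ i, ind H (vY c m v) (vT c i) + ∑ w, ind H (vY c m v) (vY c m w)) = ∑ v : Fin 13, 3 :=
      Finset.sum_congr rfl (fun v _ => eY c m v)
    rw [Finset.sum_add_distrib] at h1
    have h2 := even_gadget H c m
    obtain ⟨e, he⟩ := h2
    simp only [Finset.sum_const, Finset.card_univ, Fintype.card_fin, smul_eq_mul] at h1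
    omega
  have hY24 : 24 ≤ ∑ c, ∑ m, ∑ v, ∑ i, ind H (vY c m v) (vT c i) := by
    calc 24 = ∑ c : Fin 3, ∑ m : Fin 8, 1 := by simp
      _ ≤ _ := Finset.sum_le_sum (fun c _ => Finset.sum_le_sum (fun m _ => hgadget c m))
  have hswap : ∑ c, ∑ m, ∑ v, ∑ i, ind H (vY c m v) (vT c i) ≤ ∑ c, ∑ i, ∑ c', ∑ m, ∑ v, ind H (vT c i) (vY c' m v) := by
    apply Finset.sum_le_sum
    intro c _
    have h1 : ∑ m, ∑ v, ∑ i, ind H (vY c m v) (vT c i) = ∑ i, ∑ m, ∑ v, ind H (vT c i) (vY c m v) := by
      have h2 : ∀ m, ∑ v, ∑ i, ind H (vY c m v) (vT c i) = ∑ i, ∑ v, ind H (vT c i) (vY c m v) := by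
        intro m
        rw [Finset.sum_comm]
        apply Finset.sum_congr rfl
        intro i _
        apply Finset.sum_congr rfl
        intro v _
        exact ind_symm _ _ _
      rw [Finset.sum_congr rfl (fun m _ => h2 m), Finset.sum_comm]
    rw [h1]
    apply Finset.sum_le_sum
    intro i _
    exact Finset.single_le_sum (f := fun c' => ∑ m, ∑ v, ind H (vT c i) (vY c' m v)) (fun _ _ => Nat.zero_le _)
      (Finset.mem_univ c)
  have hT27 : ∑ c, ∑ i, (∑ a, ind H (vT c i) (vS a) + ∑ c', ∑ m, ∑ v, ind H (vT c i) (vY c' m v)) =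
      ∑ c : Fin 3, ∑ i : Fin 3, 3 := Finset.sum_congr rfl (fun c _ => Finset.sum_congr rfl (fun i _ => eT c i))
  have hsplit : ∑ c, ∑ i, (∑ a, ind H (vT c i) (vS a) + ∑ c', ∑ m, ∑ v, ind H (vT c i) (vY c' m v)) =
      ∑ c, ∑ i, ∑ a, ind H (vT c i) (vS a) + ∑ c, ∑ i, ∑ c', ∑ m, ∑ v, ind H (vT c i) (vY c' m v) := by
    rw [← Finset.sum_add_distrib]
    apply Finset.sum_congr rfl
    intro c _
    rw [← Finset.sum_add_distrib]
  have hTS : ∑ c, ∑ i, ∑ a, ind H (vT c i) (vS a) ≤ 3 := by
    simp only [Finset.sum_const, Finset.card_univ, Fintype.card_fin, smul_eq_mul] at hT27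
    omega
  have hST : ∑ a, ∑ c, ∑ i, ind H (vS a) (vT c i) = ∑ c, ∑ i, ∑ a, ind H (vT c i) (vS a) := by
    rw [Finset.sum_comm]
    apply Finset.sum_congr rfl
    intro c _
    rw [Finset.sum_comm]
    apply Finset.sum_congr rfl
    intro i _
    apply Finset.sum_congr rfl
    intro a _
    exact ind_symm _ _ _
  have hS9 : ∑ a, (∑ b, ind H (vS a) (vS b) + ∑ c, ∑ i, ind H (vS a) (vT c i)) = ∑ a : Fin 3, 3 :=
    Finset.sum_congr rfl (fun a _ => eS a)
  rw [Finset.sum_add_distrib] at hS9
  have hSS : 6 ≤ ∑ a, ∑ b, ind H (vS a) (vS b) := by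
    simp only [Finset.sum_const, Finset.card_univ, Fintype.card_fin, smul_eq_mul] at hS9
    omega
  -- all six ordered pairs are adjacent in `H`
  have hd : ∀ a, ind H (vS a) (vS a) = 0 := fun a => ind_zero (H.loopless.irrefl _)
  simp only [Fin.sum_univ_three, hd] at hSS
  have l01 := ind_le H (vS 0) (vS 1)
  have l02 := ind_le H (vS 0) (vS 2)
  have l10 := ind_le H (vS 1) (vS 0)
  have l12 := ind_le H (vS 1) (vS 2)
  have l20 := ind_le H (vS 2) (vS 0)
  have l21 := ind_le H (vS 2) (vS 1)
  apply adj_of_ind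
  fin_cases a <;> fin_cases b <;> first | exact absurd rfl hab | (simp only [Fin.zero_eta, Fin.mk_one, Fin.reduceFinMk]; omega)

def w0 : GG.Walk (vS 0) (vS 0) :=
  Walk.cons (adj_SS (show (0 : Fin 3) ≠ 1 by decide)) (Walk.cons (adj_SS (show (1 : Fin 3) ≠ 2 by decide))
    (Walk.cons (adj_SS (show (2 : Fin 3) ≠ 0 by decide)) Walk.nil))

theorem w0_cycle : w0.IsCycle := by
  unfold w0
  rw [Walk.cons_isCycle_iff]
  simp

theorem not_claim (κ : ℕ) (hκ : κ = 2 ∨ κ = 3) (hconn : IsConn GG κ) : ¬ Claim κ := by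
  intro h
  have h1 := h 11 8 (by norm_num) (by norm_num) (by rcases hκ with rfl | rfl <;> norm_num) (by norm_num) VV GG hconn
    GG_regular exists_factor {{e | e ∈ w0.edges}} ⟨by
      intro C hC
      rw [Set.mem_singleton_iff] at hC
      exact ⟨vS 0, w0, w0_cycle, w0_cycle.three_le_length, hC⟩, by
      intro C hC D hD hCD
      rw [Set.mem_singleton_iff] at hC hD
      exact absurd (hC.trans hD.symm) hCD⟩
  obtain ⟨F, hF, hC⟩ := h1
  obtain ⟨e, heF, heC⟩ := hC _ rfl
  have hreg : IsRegular (GG \ F) 3 := diff_regular hF.1 GG_regular hF.2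
  have htri := triangle_in (GG \ F) sdiff_le hreg
  have heC' : e ∈ w0.edges := heC
  simp only [w0, Walk.edges_cons, Walk.edges_nil, List.mem_cons, List.not_mem_nil, or_false] at heC'
  rcases heC' with rfl | rfl | rfl
  · exact (htri 0 1 (by decide)).2 heF
  · exact (htri 1 2 (by decide)).2 heF
  · exact (htri 2 0 (by decide)).2 heF

/-- The assertion fails for `κ = 2` and for `κ = 3`, already for simple graphs. -/
theorem result : ¬ Claim 2 ∧ ¬ Claim 3 :=
  ⟨not_claim 2 (Or.inl rfl) conn2, not_claim 3 (Or.inr rfl) conn3⟩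

end Pool.Agent.Results.MP_f3efb8_co.TriangleMissed
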